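import Pool.Agent.T2h12.FB.Fin

/-!
A Fano conic bundle with relative Picard number two and a non-reduced fibre.

The smooth proper varieties (`SmoothProperVariety`) and the notion of a Fano variety (`IsFano`) are
those of `Pool/Agent/Helper419/KS/Defs.lean` (starting files): a variety is given by its function
field and a finite atlas of affine coordinate rings in the function field, smooth over `ℂ`,
separated and complete; Fano means that some multiple of `-K` is very ample (in particular the
variety is projective).  The other definitions are in `Pool/Agent/T2h12/FB/Defs.lean`.
-/

set_option autoImplicit false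

open FanoFib

/-- **Non-reduced fibres of Fano conic bundles with `ρ_X - ρ_Y = 2` exist.**

There are a Fano manifold `X` of dimension four, a smooth projective (even Fano) variety `Y` of
dimension three, and a morphism `f : X → Y`, given by the inclusion `φ` of the function fields, such
that

* `f` is a Fano conic bundle (`IsFanoConicBundle φ`): every affine piece of `X` is mapped into an
  affine piece of `Y`; every scheme-theoretic fibre of `f` over a closed point is nonempty and has
  dimension one; `f_* O_X = O_Y`;
* the divisor class group of `X` is isomorphic to `ℤ⁴` and that of `Y` to `ℤ²`.  As `X` and `Y` are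
  smooth and projective these are the Picard groups, and as they are finitely generated (so
  `Pic⁰ = 0`, an abelian variety being divisible) their ranks are the Picard numbers:
  `ρ_X - ρ_Y = 4 - 2 = 2`;
* some scheme-theoretic fibre of `f` over a closed point is not reduced.

In the proof `X` is the hypersurface `u² + y₀ p u + h(w) y₁² p² - y₀ y₁ s² = 0`,
`h = w₀⁴ + w₁⁴ + w₂⁴`, in a bundle of projective planes with the coordinates `p, s, u` over
`Y = ℙ(O ⊕ O(2))` over the plane with the coordinates `w`; `y₀, y₁` are the coordinates of the fibres
of `Y`.  The fibre over a point with `y₀ = 0 = h(w)` is the double line `u² = 0`; over the surface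
`y₁ = 0` the fibres split into the lines `u = 0` and `u + y₀ p = 0`. -/
theorem Pool.Agent.Results.MP_a703b5_ag.NonreducedFibre.result :
    ∃ (X Y : SmoothProperVariety) (φ : Y.K →ₐ[ℂ] X.K),
      IsFanoConicBundle φ ∧ Y.IsFano ∧ X.dim = 4 ∧ Y.dim = 3 ∧
      Nonempty (X.ClassGroup ≃+ (Fin 4 → ℤ)) ∧ Nonempty (Y.ClassGroup ≃+ (Fin 2 → ℤ)) ∧
      HasNonreducedFibre φ :=
  FB.fin
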